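import Pool.Agent.Helper27.VF.Goals

/-! Packet VF-ORC. -/

set_option autoImplicit false

namespace Pool.Agent.Helper84.VF

open Pool.Agent.Helper27.VF

universe u

theorem orc (h1 : OraStmt.{u}) (h2 : OrbStmt.{u}) : OrcStmt.{u} := by
  intro A W _ _ G G₀ w p hst k hk g d hd hgd
  by_contra hg
  obtain ⟨-, hA⟩ := h1 A W G G₀ w p hst k hk
  obtain ⟨-, hB, -, -⟩ := h2 A W G G₀ w p hst k hk
  obtain ⟨e, he, heg⟩ := hB g hg
  have hmin : ∀ c ∈ SS A G p k, Inn p g c.1 → Lw c (tr g d) → c = tr g d := by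
    intro c hc hcg hlw
    have i1 : tr g⁻¹ c ∈ SS A G p k := SS.tr hst hc g⁻¹
    have i2 : Inn p (1 : A) (tr g⁻¹ c).1 := by
      rw [inn_tr_fst, inv_inv, mul_one]
      exact hcg
    have i3 : Lw (tr g⁻¹ c) d := by
      constructor
      · intro x hx
        have hx1 : g⁻¹⁻¹ • x ∈ c.1 := hx
        have hx2 : g⁻¹ • g⁻¹⁻¹ • x ∈ d.1 := hlw.1 hx1
        rwa [smul_inv_smul] at hx2
      · intro x hx
        have hx0 : g⁻¹ • g⁻¹⁻¹ • x ∈ d.2 := by rwa [smul_inv_smul]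
        exact hlw.2 (show g⁻¹⁻¹ • x ∈ (tr g d).2 from hx0)
    have i4 := hd.2.2 _ i1 i2 i3
    rw [← i4, tr_tr, mul_inv_cancel, tr_one]
  have hgd1 : Inn p g (tr g d).1 := by
    rw [inn_tr_fst, inv_mul_cancel]
    exact hd.2.1
  have hne : tr g d ≠ e := by
    intro heq
    rw [heq] at hgd1
    exact (inn_snd hst he.1.1).1 heg hgd1
  obtain ⟨a, b, -, hb⟩ := hgd.1.2.2
  have hbe : Inn p b e.1 := by
    by_contra hcon
    exact hA _ hgd e he hne b ⟨hb, (inn_snd hst he.1.1).2 hcon⟩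
  have hc := (corner hk hgd.1 (SS.swap he.1) (inn_inter.2 ⟨hgd1, heg⟩)
    (inn_inter.2 ⟨hb, hbe⟩)).1
  have hceq := hmin _ hc (inn_inter.2 ⟨hgd1, heg⟩)
    ⟨fun x hx => hx.1, fun x hx => Or.inl hx⟩
  have hsub : (tr g d).1 ⊆ e.2 := by
    intro x hx
    rw [← hceq] at hx
    exact hx.2
  exact (inn_snd hst he.1.1).1 (inn_mono hsub hgd.2.1) he.2.1

end Pool.Agent.Helper84.VF
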