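import Pool.Agent.Helper96.VF.Goals

/-!
Project VF (MP_6829b3_nt), packet VF-U2O.
-/

set_option autoImplicit false

namespace Pool.Agent.Helper84.VF

open Pool.Agent.Helper96.VF

theorem gU2O (hROW : ROW) (hTILE : TILE) (hGF : GF) : U2O := by
  intro y B j S h1 h2 h3 h4 hV hR hg
  have hy : 1 ≤ y := by
    have : 0 < 2 * 3 ^ B := by positivity
    omega
  have h3B : 3 ^ (B + 1) = 3 * 3 ^ B := by rw [pow_succ]; ring
  have hlog3 : Nat.log 3 y = B := by
    apply Nat.log_eq_of_pow_le_of_lt_pow
    · omega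
    · omega
  have e1 : 2 ^ (2 * j + 1) = 2 * 4 ^ j := by
    rw [pow_succ, pow_mul]; norm_num; ring
  have e2 : 2 ^ (2 * j + 1 + 1) = 4 * 4 ^ j := by
    rw [pow_succ, pow_succ, pow_mul]; norm_num; ring
  have hlog2 : Nat.log 2 y = 2 * j + 1 := by
    apply Nat.log_eq_of_pow_le_of_lt_pow
    · omega
    · omega
  have hgy : g y = B + 1 + (2 * j + 1 + 1) / 2 := by
    have h := (hGF y hy).2
    rw [hlog3, hlog2] at h
    apply h
    rintro ⟨-, h5⟩
    omega
  have hb : ∀ u ∈ S, u.2 ≤ B := by
    intro u hu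
    have h5 := hR u hu
    have h6 : 3 ^ u.2 ≤ y := le_trans (Nat.le_mul_of_pos_left _ (by positivity)) h5
    have h7 : 3 ^ u.2 < 3 ^ (B + 1) := by omega
    have := (Nat.pow_lt_pow_iff_right (by norm_num : 1 < 3)).1 h7
    omega
  have ha : ∀ u ∈ S, u.1 ≤ 2 * j + 1 := by
    intro u hu
    have h5 := hR u hu
    have h6 : 2 ^ u.1 ≤ y := le_trans (Nat.le_mul_of_pos_right _ (by positivity)) h5
    have h7 : 2 ^ u.1 < 2 ^ (2 * j + 1 + 1) := by omega
    have := (Nat.pow_lt_pow_iff_right (by norm_num : 1 < 2)).1 h7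
    omega
  obtain ⟨D, lo, hi, hD1, hD2, hD3, hD4⟩ := hROW S hV
  have hsub : S.image Prod.snd ⊆ Finset.range (B + 1) := by
    intro b hb'
    rw [Finset.mem_image] at hb'
    obtain ⟨u, hu, rfl⟩ := hb'
    rw [Finset.mem_range]
    have := hb u hu
    omega
  have hcard := Finset.card_le_card hsub
  rw [Finset.card_range] at hcard
  have hT := hTILE D hi 1 (2 * j + 1)
    (by
      intro b hbD b' hbD' hlt
      have h5 := hD2 b hbD b' hbD' hlt
      have h6 := (hD1 b hbD).2.2
      omega)
    (by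
      intro b hbD
      have h5 := hD1 b hbD
      have h6 := ha _ h5.2.1
      simp only at h6
      omega)
  have hDcard : D.card = j + 1 := by omega
  have hicard : (S.image Prod.snd).card = B + 1 := by omega
  have himg : S.image Prod.snd = Finset.range (B + 1) := by
    apply Finset.eq_of_subset_of_card_le hsub
    rw [Finset.card_range, hicard]
  have hBmem : B ∈ S.image Prod.snd := by
    rw [himg, Finset.mem_range]; omega
  rw [Finset.mem_image] at hBmem
  obtain ⟨⟨c, B'⟩, hcS, hcB⟩ := hBmem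
  simp only at hcB
  subst hcB
  obtain ⟨b, hbD, hhib⟩ := (hT.2 (by omega)).1 (by omega)
  obtain ⟨h5, h6, h7⟩ := hD1 b hbD
  have hlob : lo b = 0 := by omega
  rw [hlob] at h5
  rw [hhib] at h6
  have hbB := hb _ h5
  simp only at hbB
  rcases Nat.lt_or_ge b B' with hlt | hge
  · exfalso
    refine hV (0, b) h5 (1, b) h6 (c, B') hcS (by simp) ?_ ?_ ⟨?_, ?_⟩
    · intro h
      have := congrArg Prod.snd h
      simp only at this
      omega
    · intro h
      have := congrArg Prod.snd h
      simp only at this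
      omega
    · exact ⟨by simp, le_refl _⟩
    · exact ⟨by simp, hlt.le⟩
  · have : b = B' := by omega
    rw [← this]
    exact h6

end Pool.Agent.Helper84.VF
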